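import Pool.Agent.YG.Final
import Pool.Agent.YGI.Div

/-!
# There is no gap below `2n` for the critical exponents of convex-cocompact subgroups of `PU(2,1)`
-/

set_option autoImplicit false

namespace Pool.Agent.Results.MP_b0ef7e_gt.GapFails

open Matrix Pool.Agent.YG

/-- Complex `n`-space with its Hermitian norm. -/
abbrev Space (n : ℕ) := EuclideanSpace ℂ (Fin n)

/-- The open unit ball of complex `n`-space. -/
abbrev Ball (n : ℕ) : Set (Space n) := Metric.ball (0 : Space n) 1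

/-- The centre of the ball. -/
def center (n : ℕ) : Ball n := ⟨0, Metric.mem_ball_self one_pos⟩

/-- The complex hyperbolic (Bergman) distance of the ball, normalised so that the sectional
curvatures lie in `[-4, -1]`: `cosh d(z, w) = |1 - ⟨z, w⟩| / √((1 - |z|²) (1 - |w|²))`. -/
noncomputable def bergmanDist {n : ℕ} (z w : Ball n) : ℝ :=
  Real.arcosh (‖(1 : ℂ) - inner ℂ (z : Space n) (w : Space n)‖ /
    Real.sqrt ((1 - ‖(z : Space n)‖ ^ 2) * (1 - ‖(w : Space n)‖ ^ 2)))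

/-- A self-map of the ball is holomorphic. -/
def Holomorphic {n : ℕ} (g : Ball n → Ball n) : Prop :=
  ∃ f : Space n → Space n, DifferentiableOn ℂ f (Ball n) ∧ ∀ z : Ball n, f z = g z

theorem Holomorphic.comp {n : ℕ} {g h : Ball n → Ball n} (hg : Holomorphic g)
    (hh : Holomorphic h) : Holomorphic (g ∘ h) := by
  obtain ⟨f, hf, hfg⟩ := hg
  obtain ⟨k, hk, hkh⟩ := hh
  refine ⟨f ∘ k, ?_, ?_⟩
  · refine hf.comp hk ?_
    intro z hz
    have h1 := hkh ⟨z, hz⟩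
    change k z = _ at h1
    rw [h1]
    exact (h ⟨z, hz⟩).2
  · intro z
    change f (k z) = g (h z)
    rw [hkh, hfg]

theorem Holomorphic.id {n : ℕ} : Holomorphic (fun z : Ball n => z) :=
  ⟨fun z => z, differentiableOn_id, fun _ => rfl⟩

/-- The group `G` of biholomorphic self-maps of the ball (isomorphic to `PU(n,1)`). -/
def Aut (n : ℕ) : Subgroup (Equiv.Perm (Ball n)) where
  carrier := {g | Holomorphic (fun z => g z) ∧ Holomorphic (fun z => g⁻¹ z)}
  mul_mem' := by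
    rintro g h ⟨hg, hg'⟩ ⟨hh, hh'⟩
    refine ⟨hg.comp hh, ?_⟩
    rw [_root_.mul_inv_rev]
    exact hh'.comp hg'
  one_mem' := ⟨Holomorphic.id, by rw [inv_one]; exact Holomorphic.id⟩
  inv_mem' := by
    rintro g ⟨hg, hg'⟩
    refine ⟨hg', ?_⟩
    rw [inv_inv]
    exact hg

/-- `Γ` is discrete: it acts properly discontinuously on the ball (only finitely many elements of
`Γ` move a given point by at most `R`). -/
def Discrete {n : ℕ} (Γ : Subgroup (Equiv.Perm (Ball n))) : Prop :=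
  ∀ (x : Ball n) (R : ℝ), {γ : Equiv.Perm (Ball n) | γ ∈ Γ ∧ bergmanDist x (γ x) ≤ R}.Finite

/-- `Γ` has no element of finite order other than the identity. -/
def TorsionFree {n : ℕ} (Γ : Subgroup (Equiv.Perm (Ball n))) : Prop :=
  ∀ γ ∈ Γ, ∀ k : ℕ, 0 < k → γ ^ k = 1 → γ = 1

/-- The limit set of `Γ`: the points of the unit sphere in the closure of the orbit of the
centre. -/
def limitSet {n : ℕ} (Γ : Subgroup (Equiv.Perm (Ball n))) : Set (Space n) :=
  Metric.sphere (0 : Space n) 1 ∩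
    closure {x | ∃ γ ∈ Γ, x = ((γ (center n) : Ball n) : Space n)}

/-- Geodesically convex subsets of the ball. The point `z` lies on the geodesic segment from `x`
to `y` if and only if `d(x, z) + d(z, y) = d(x, y)`. -/
def GeodesicallyConvex {n : ℕ} (C : Set (Ball n)) : Prop :=
  ∀ x ∈ C, ∀ y ∈ C, ∀ z : Ball n, bergmanDist x z + bergmanDist z y = bergmanDist x y → z ∈ C

/-- The convex hull in the ball of a subset `L` of the closed ball: the smallest closed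
geodesically convex subset `C` of the ball with `L` in the closure of `C`. -/
def hull {n : ℕ} (L : Set (Space n)) : Set (Ball n) :=
  ⋂₀ {C : Set (Ball n) | IsClosed C ∧ GeodesicallyConvex C ∧
    L ⊆ closure ((fun z : Ball n => (z : Space n)) '' C)}

/-- `Γ` acts cocompactly on the convex hull of its limit set. -/
def ConvexCocompact {n : ℕ} (Γ : Subgroup (Equiv.Perm (Ball n))) : Prop :=
  ∃ K : Set (Ball n), IsCompact K ∧ hull (limitSet Γ) ⊆ ⋃ γ ∈ Γ, (⇑γ) '' K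

/-- `Γ` acts cocompactly on the ball. -/
def CocompactOnBall {n : ℕ} (Γ : Subgroup (Equiv.Perm (Ball n))) : Prop :=
  ∃ K : Set (Ball n), IsCompact K ∧ Set.univ ⊆ ⋃ γ ∈ Γ, (⇑γ) '' K

/-- The critical exponent of `Γ`, computed at the base point `x`. -/
noncomputable def criticalExponent {n : ℕ} (Γ : Subgroup (Equiv.Perm (Ball n))) (x : Ball n) : ℝ :=
  sInf {s : ℝ | 0 < s ∧ Summable fun γ : Γ =>
    Real.exp (-(s * bergmanDist x ((γ : Equiv.Perm (Ball n)) x)))}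

/-! ## The action of `U(2,1)` on the ball -/

theorem bact_mem (A : U) (z : B2) :
    bact A z ∈ Metric.ball (0 : B2) 1 ↔ z ∈ Metric.ball (0 : B2) 1 := by
  rw [bact_apply]
  constructor
  · intro h
    by_contra hz
    rw [mem_ball_zero_iff] at hz
    rw [bfun_of_not_lt _ _ hz, mem_ball_zero_iff] at h
    exact hz h
  · intro h
    rw [mem_ball_zero_iff] at h ⊢
    exact bfun_norm _ A.2 z h

/-- the action on the ball -/
noncomputable def rAct : U →* Equiv.Perm (Ball 2) where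
  toFun A := (bact A).subtypePerm (bact_mem A)
  map_one' := Equiv.ext fun z => Subtype.ext (by
    rw [Equiv.Perm.subtypePerm_apply]
    change bact 1 (z : B2) = (z : B2)
    rw [map_one]
    rfl)
  map_mul' A B := Equiv.ext fun z => Subtype.ext (by
    change bact (A * B) (z : B2) = bact A (bact B (z : B2))
    rw [map_mul]
    rfl)

theorem rAct_val (A : U) (z : Ball 2) : ((rAct A z : Ball 2) : B2) = bfun (A : GL3) (z : B2) := by
  change bact A (z : B2) = _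
  rw [bact_apply]

theorem ball_lt (z : Ball 2) : ‖(z : B2)‖ < 1 := by
  have := z.2
  rwa [mem_ball_zero_iff] at this

theorem unit_lft (z : Ball 2) : hf (lft (z : B2)) (lft (z : B2)) = -1 := lft_unit _ (ball_lt z)

theorem dist_eq (z w : Ball 2) : bergmanDist z w = Real.arcosh (E (lft (z : B2)) (lft (w : B2))) := by
  rw [bergmanDist, E_lft _ _ (ball_lt z) (ball_lt w)]

theorem E_rAct (A : U) (z w : Ball 2) :
    E (lft (z : B2)) (lft ((rAct A w : Ball 2) : B2)) = E (lft (z : B2)) (act (A : GL3) (lft (w : B2))) := by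
  rw [rAct_val]
  obtain ⟨t, ht, h⟩ := lft_bfun (A : GL3) A.2 (w : B2) (ball_lt w)
  rw [h, E_smul_right, ht, one_mul]

theorem act_unit {A : GL3} (hA : A ∈ U) {x : V} (hx : hf x x = -1) : hf (act A x) (act A x) = -1 := by
  rw [hf_act hA, hx]

/-- comparison of displacements, upper bound -/
theorem disp_le (A : U) (x : Ball 2) :
    E (lft (x : B2)) (act (A : GL3) (lft (x : B2))) ≤
      4 * E (lft (x : B2)) e0 ^ 2 * ‖((A : GL3) : M3) 0 0‖ := by
  have hx := unit_lft x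
  have hAx := act_unit A.2 hx
  have hAe := hf_act_e0 A.2
  have h1 := E_tri (lft (x : B2)) (act (A : GL3) (lft (x : B2))) e0 hx hAx hf_e0
  have h2 := E_tri e0 (act (A : GL3) (lft (x : B2))) (act (A : GL3) e0) hf_e0 hAx hAe
  rw [E_e0_act, E_act A.2, E_symm e0 (lft (x : B2))] at h2
  have h3 := E_nonneg (lft (x : B2)) e0
  calc E (lft (x : B2)) (act (A : GL3) (lft (x : B2)))
      ≤ 2 * E (lft (x : B2)) e0 * E e0 (act (A : GL3) (lft (x : B2))) := h1
    _ ≤ 2 * E (lft (x : B2)) e0 * (2 * ‖((A : GL3) : M3) 0 0‖ * E (lft (x : B2)) e0) := by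
        gcongr
    _ = _ := by ring

/-- comparison of displacements, lower bound -/
theorem le_disp (A : U) (x : Ball 2) :
    ‖((A : GL3) : M3) 0 0‖ ≤
      4 * E (lft (x : B2)) e0 ^ 2 * E (lft (x : B2)) (act (A : GL3) (lft (x : B2))) := by
  have hx := unit_lft x
  have hAx := act_unit A.2 hx
  have hAe := hf_act_e0 A.2
  have h1 := E_tri e0 (act (A : GL3) e0) (lft (x : B2)) hf_e0 hAe hx
  have h2 := E_tri (lft (x : B2)) (act (A : GL3) e0) (act (A : GL3) (lft (x : B2))) hx hAe hAx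
  rw [E_act A.2] at h2
  rw [E_e0_act, E_symm e0 (lft (x : B2))] at h1
  have h3 := E_nonneg (lft (x : B2)) e0
  calc ‖((A : GL3) : M3) 0 0‖
      ≤ 2 * E (lft (x : B2)) e0 * E (lft (x : B2)) (act (A : GL3) e0) := h1
    _ ≤ 2 * E (lft (x : B2)) e0 *
        (2 * E (lft (x : B2)) (act (A : GL3) (lft (x : B2))) * E (lft (x : B2)) e0) := by
        gcongr
    _ = _ := by ring

theorem one_le_norm {A : GL3} (hA : A ∈ U) : 1 ≤ ‖(A : M3) 0 0‖ := by
  rw [← E_e0_act]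
  exact one_le_E _ _ hf_e0 (hf_act_e0 hA)

/-! ## The group -/

/-- the group of automorphisms of the ball attached to a subgroup of `U(2,1)` -/
noncomputable def GR (Γ : Subgroup GL3) : Subgroup (Equiv.Perm (Ball 2)) :=
  (Γ.subgroupOf U).map rAct

theorem mem_GR (Γ : Subgroup GL3) (hU : Γ ≤ U) (γ : Equiv.Perm (Ball 2)) :
    γ ∈ GR Γ ↔ ∃ A : GL3, ∃ hA : A ∈ Γ, γ = rAct ⟨A, hU hA⟩ := by
  constructor
  · rintro ⟨A, hA, rfl⟩
    exact ⟨(A : GL3), hA, rfl⟩
  · rintro ⟨A, hA, rfl⟩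
    exact ⟨⟨A, hU hA⟩, hA, rfl⟩

theorem holo_rAct (A : U) : Holomorphic (fun z => rAct A z) :=
  ⟨bfun (A : GL3), bfun_differentiable _ A.2, fun z => (rAct_val A z).symm⟩

theorem GR_le (Γ : Subgroup GL3) : GR Γ ≤ Aut 2 := by
  rintro _ ⟨A, -, rfl⟩
  refine ⟨holo_rAct A, ?_⟩
  rw [← map_inv]
  exact holo_rAct A⁻¹

theorem scalar_of_rAct (A : U) (h : rAct A = 1) : ∃ μ : ℂ, ((A : GL3) : M3) = μ • (1 : M3) := by
  apply bfun_trivial (A : GL3) A.2
  intro z hz
  have h1 := rAct_val A ⟨z, by rw [mem_ball_zero_iff]; exact hz⟩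
  rw [h] at h1
  exact h1.symm

theorem rAct_inj (Λ Γ : Subgroup GL3) (h : Hyp Λ Γ) (A B : GL3) (hA : A ∈ Γ) (hB : B ∈ Γ)
    (hAB : rAct ⟨A, h.hΓU hA⟩ = rAct ⟨B, h.hΓU hB⟩) : A = B := by
  have h1 : rAct ((⟨A, h.hΓU hA⟩ : U)⁻¹ * ⟨B, h.hΓU hB⟩) = 1 := by
    rw [map_mul, map_inv, hAB, inv_mul_cancel]
  obtain ⟨μ, hμ⟩ := scalar_of_rAct _ h1
  have h2 : (((A⁻¹ * B) ^ 1 : GL3) : M3) = μ • (1 : M3) := by
    rw [pow_one]; exact hμ
  have h3 := h.htf (A⁻¹ * B) (Γ.mul_mem (Γ.inv_mem hA) hB) 1 one_pos μ h2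
  exact inv_mul_eq_one.mp h3

theorem torsionFree (Λ Γ : Subgroup GL3) (h : Hyp Λ Γ) : TorsionFree (GR Γ) := by
  intro γ hγ k hk hγk
  obtain ⟨A, hA, rfl⟩ := (mem_GR Γ h.hΓU γ).mp hγ
  rw [← map_pow] at hγk
  obtain ⟨μ, hμ⟩ := scalar_of_rAct _ hγk
  have h3 := h.htf A hA k hk μ hμ
  subst h3
  exact map_one rAct

theorem discrete (Λ Γ : Subgroup GL3) (h : Hyp Λ Γ) : Discrete (GR Γ) := by
  intro x R
  obtain ⟨κ, hκ⟩ := h.hS1
  have hcosh := Real.cosh_pos R
  have hx1 := one_le_E (lft (x : B2)) e0 (unit_lft x) hf_e0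
  obtain ⟨M, hM⟩ : ∃ M : ℝ, M = 4 * E (lft (x : B2)) e0 ^ 2 * Real.cosh R := ⟨_, rfl⟩
  have hM0 : 0 < M := by rw [hM]; positivity
  have hpos : 0 < (M⁻¹) ^ κ := by positivity
  have hev := hκ.tendsto_cofinite_zero.eventually (gt_mem_nhds hpos)
  rw [Filter.eventually_cofinite] at hev
  have himg := hev.image (fun A : Λ => rAct ⟨(A : GL3), h.hU A.2⟩)
  refine himg.subset ?_
  rintro γ ⟨hγ, hR⟩
  obtain ⟨A, hA, rfl⟩ := (mem_GR Γ h.hΓU γ).mp hγ
  refine ⟨⟨A, h.hΓ hA⟩, ?_, rfl⟩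
  have h1 := one_le_norm (h.hΓU hA)
  rw [dist_eq, E_rAct] at hR
  have hux := unit_lft x
  have h2 := dist_le _ R (one_le_E _ _ hux (act_unit (h.hΓU hA) hux)) hR
  have h3 := le_disp ⟨A, h.hΓU hA⟩ x
  have h4 : ‖(A : M3) 0 0‖ ≤ M := by
    rw [hM]
    refine h3.trans ?_
    gcongr
  simp only [Set.mem_ofPred_eq, not_lt]
  exact pow_le_pow_left₀ (by positivity) (inv_anti₀ (by linarith) h4) _

theorem not_cocompact (Λ Γ : Subgroup GL3) (h : Hyp Λ Γ) : ¬ CocompactOnBall (GR Γ) := by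
  rintro ⟨K, hK, hcov⟩
  refine gp_not_cocompact Λ Γ h ⟨(fun z : Ball 2 => (z : B2)) '' K,
    hK.image continuous_subtype_val, ?_, ?_⟩
  · rintro _ ⟨z, -, rfl⟩
    exact z.2
  · intro z hz
    have h1 := hcov (Set.mem_univ (⟨z, hz⟩ : Ball 2))
    simp only [Set.mem_iUnion, Set.mem_image, exists_prop] at h1 ⊢
    obtain ⟨γ, hγ, y, hy, hyz⟩ := h1
    obtain ⟨A, hA, rfl⟩ := (mem_GR Γ h.hΓU γ).mp hγ
    refine ⟨bact ⟨A, h.hΓU hA⟩, (mem_GP Γ h.hΓU _).2 ⟨A, hA, rfl⟩, (y : B2), ⟨y, hy, rfl⟩, ?_⟩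
    have h2 := congrArg (fun w : Ball 2 => (w : B2)) hyz
    exact h2

/-! ## The convex set -/

theorem fsum_smul {ι : Type*} (v : ι → V) (m : ℕ) (t : ℂ) (ht : ‖t‖ = 1) (x : V) :
    fsum v m (t • x) = fsum v m x := by
  unfold fsum
  refine tsum_congr (fun i => ?_)
  rw [E_smul_left, ht, one_mul]

theorem continuous_E_lft (w : V) : Continuous fun z : Ball 2 => E (lft (z : B2)) w := by
  have h1 : (fun z : Ball 2 => E (lft (z : B2)) w) = fun z : Ball 2 =>
      ‖((1 / Real.sqrt (1 - ‖(z : B2)‖ ^ 2) : ℝ) : ℂ)‖ *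
        ‖-(1 * (starRingEnd ℂ) (w 0)) + (z : B2) 0 * (starRingEnd ℂ) (w 1) +
          (z : B2) 1 * (starRingEnd ℂ) (w 2)‖ := by
    funext z
    rw [lft, E_smul_left, E, hf]
    rfl
  rw [h1]
  have h2 : Continuous fun z : Ball 2 => 1 / Real.sqrt (1 - ‖(z : B2)‖ ^ 2) := by
    refine continuous_const.div ?_ ?_
    · exact Real.continuous_sqrt.comp (by fun_prop)
    · intro z
      have h3 := ball_lt z
      have h4 : 0 < 1 - ‖(z : B2)‖ ^ 2 := by nlinarith [norm_nonneg (z : B2)]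
      exact (Real.sqrt_pos.2 h4).ne'
  have h5 : ∀ i : Fin 2, Continuous fun z : Ball 2 => (z : B2) i := by
    intro i
    exact (EuclideanSpace.proj (𝕜 := ℂ) i).continuous.comp continuous_subtype_val
  refine Continuous.mul (Complex.continuous_ofReal.comp h2).norm (Continuous.norm ?_)
  exact (continuous_const.add ((h5 0).mul continuous_const)).add ((h5 1).mul continuous_const)

theorem continuous_fsum (Λ : Subgroup GL3) (hU : Λ ≤ U) (κ m : ℕ) (hm : κ ≤ 2 * m)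
    (hS : Summable fun A : Λ => (‖((A : GL3) : M3) 0 0‖⁻¹) ^ κ) :
    Continuous fun z : Ball 2 => fsum (fun A : Λ => act (A : GL3) e0) m (lft (z : B2)) := by
  rw [continuous_iff_continuousAt]
  intro z0
  obtain ⟨R, hR⟩ : ∃ R : ℝ, R = E (lft (z0 : B2)) e0 + 1 := ⟨_, rfl⟩
  have hR0 : 0 < R := by
    rw [hR]; linarith [E_nonneg (lft (z0 : B2)) e0]
  have hopen : IsOpen {z : Ball 2 | E (lft (z : B2)) e0 < R} :=
    isOpen_lt (continuous_E_lft e0) continuous_const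
  have hmem : z0 ∈ {z : Ball 2 | E (lft (z : B2)) e0 < R} := by
    change E (lft (z0 : B2)) e0 < R
    rw [hR]; linarith
  have hon : ContinuousOn (fun z : Ball 2 => fsum (fun A : Λ => act (A : GL3) e0) m (lft (z : B2)))
      {z : Ball 2 | E (lft (z : B2)) e0 < R} := by
    refine continuousOn_tsum (u := fun A : Λ => (2 * R) ^ (2 * m) * (‖((A : GL3) : M3) 0 0‖⁻¹) ^ κ)
      ?_ (hS.mul_left _) ?_
    · intro A
      refine ContinuousOn.inv₀ ((continuous_E_lft _).pow _).continuousOn ?_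
      intro z _
      have h1 := one_le_E _ _ (unit_lft z) (hf_act_e0 (hU A.2))
      positivity
    · intro A z hz
      have hz' : E (lft (z : B2)) e0 < R := hz
      have h1 := one_le_norm (hU A.2)
      have h2 := one_le_E _ _ (unit_lft z) (hf_act_e0 (hU A.2))
      have h3 := E_tri e0 (act (A : GL3) e0) (lft (z : B2)) hf_e0 (hf_act_e0 (hU A.2)) (unit_lft z)
      rw [E_e0_act, E_symm e0] at h3
      have h4 : ‖((A : GL3) : M3) 0 0‖ ≤ 2 * R * E (lft (z : B2)) (act (A : GL3) e0) := by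
        refine h3.trans ?_
        gcongr
      have h5 : (‖((A : GL3) : M3) 0 0‖⁻¹) ^ (2 * m) ≤ (‖((A : GL3) : M3) 0 0‖⁻¹) ^ κ :=
        pow_le_pow_of_le_one (by positivity) (inv_le_one_of_one_le₀ h1) hm
      rw [Real.norm_of_nonneg (by positivity)]
      calc (E (lft (z : B2)) (act (A : GL3) e0) ^ (2 * m))⁻¹
          ≤ (2 * R) ^ (2 * m) * (‖((A : GL3) : M3) 0 0‖⁻¹) ^ (2 * m) := by
            rw [inv_pow, ← div_eq_mul_inv, inv_eq_one_div,
              div_le_div_iff₀ (by positivity) (by positivity), one_mul, ← mul_pow]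
            exact pow_le_pow_left₀ (by positivity) h4 _
        _ ≤ (2 * R) ^ (2 * m) * (‖((A : GL3) : M3) 0 0‖⁻¹) ^ κ := by
            gcongr
  exact hon.continuousAt (hopen.mem_nhds hmem)

theorem convexCocompact (Λ Γ : Subgroup GL3) (h : Hyp Λ Γ) : ConvexCocompact (GR Γ) := by
  obtain ⟨κ, hκ⟩ := h.hS1
  obtain ⟨K, hK⟩ := h.hS2
  obtain ⟨m, hmdef⟩ : ∃ m : ℕ, m = 3 * (κ + 1) := ⟨_, rfl⟩
  have hm : 2 * m = 6 * (κ + 1) := by omega
  have hm1 : 1 ≤ m := by omega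
  obtain ⟨R, hRdef⟩ : ∃ R : ℝ, R = |2 * K * (2 * (m : ℝ) + 4)| + 1 := ⟨_, rfl⟩
  have hR1 : 1 ≤ R := by
    rw [hRdef]; linarith [abs_nonneg (2 * K * (2 * (m : ℝ) + 4))]
  have hR0 : 0 < R := by linarith
  have hRK : 2 * K * (2 * (m : ℝ) + 4) < R ^ 2 := by
    have h1 : 2 * K * (2 * (m : ℝ) + 4) < R := by
      rw [hRdef]; linarith [le_abs_self (2 * K * (2 * (m : ℝ) + 4))]
    nlinarith
  have hv : ∀ A : Λ, hf (act (A : GL3) e0) (act (A : GL3) e0) = -1 :=
    fun A => hf_act_e0 (h.hU A.2)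
  have hS : ∀ x, hf x x = -1 → Summable fun A : Λ => (E x (act (A : GL3) e0) ^ (2 * m))⁻¹ :=
    fun x hx => fsum_summable Λ h.hU κ hκ m hm x hx
  have hε : 0 < (R ^ (2 * m))⁻¹ := inv_pos.mpr (pow_pos hR0 _)
  obtain ⟨C, hC⟩ : ∃ C : Set (Ball 2),
      C = {z : Ball 2 | (R ^ (2 * m))⁻¹ ≤ fsum (fun A : Λ => act (A : GL3) e0) m (lft (z : B2))} :=
    ⟨_, rfl⟩
  -- the set `C` belongs to the family defining the hull
  have hCmem : hull (limitSet (GR Γ)) ⊆ C := by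
    refine Set.sInter_subset_of_mem ⟨?_, ?_, ?_⟩
    · rw [hC]
      exact isClosed_le continuous_const (continuous_fsum Λ h.hU κ m (by omega) hκ)
    · intro x hx y hy z hdz
      rw [hC] at hx hy ⊢
      have hux := unit_lft x
      have huy := unit_lft y
      have huz := unit_lft z
      rw [dist_eq, dist_eq, dist_eq] at hdz
      have hb := dist_add _ _ _ (one_le_E _ _ hux huz) (one_le_E _ _ huz huy)
        (one_le_E _ _ hux huy) hdz
      refine superlevel_convex (fun A : Λ => act (A : GL3) e0) hv m hm1 hS K R hR0 hRK ?_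
        (lft (x : B2)) (lft (y : B2)) (lft (z : B2)) hux huy huz hb hx hy
      intro w hw A B
      obtain ⟨N, hN, hN2⟩ := hK w hw A A.2 B B.2
      exact ⟨⟨N, hN⟩, hN2⟩
    · refine Set.inter_subset_right.trans (closure_mono ?_)
      rintro _ ⟨γ, hγ, rfl⟩
      obtain ⟨A, hA, rfl⟩ := (mem_GR Γ h.hΓU γ).1 hγ
      refine ⟨rAct ⟨A, h.hΓU hA⟩ (center 2), ?_, rfl⟩
      rw [hC]
      change (R ^ (2 * m))⁻¹ ≤
        fsum (fun A : Λ => act (A : GL3) e0) m (lft ((rAct ⟨A, h.hΓU hA⟩ (center 2) : Ball 2) : B2))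
      rw [rAct_val]
      obtain ⟨t, ht, hlt⟩ := lft_bfun A (h.hΓU hA) ((center 2 : Ball 2) : B2) (ball_lt _)
      rw [hlt, fsum_smul _ m t ht, fsum_inv Λ h.hU m A (h.hΓ hA)]
      change (R ^ (2 * m))⁻¹ ≤ fsum (fun A : Λ => act (A : GL3) e0) m (lft 0)
      rw [lft_zero]
      have h1 : (R ^ (2 * m))⁻¹ ≤ 1 := inv_le_one_of_one_le₀ (one_le_pow₀ hR1)
      have h2 : (E e0 (act ((1 : Λ) : GL3) e0) ^ (2 * m))⁻¹ = 1 := by
        rw [OneMemClass.coe_one, act_one, E_self e0 hf_e0, one_pow, inv_one]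
      have h3 : (E e0 (act ((1 : Λ) : GL3) e0) ^ (2 * m))⁻¹ ≤
          fsum (fun A : Λ => act (A : GL3) e0) m e0 :=
        (hS e0 hf_e0).le_tsum (1 : Λ) (fun A _ => inv_nonneg.mpr (pow_nonneg (E_nonneg _ _) _))
      rw [h2] at h3
      exact h1.trans h3
  -- `Γ` acts cocompactly on `C`
  obtain ⟨R', hR'⟩ := near Λ h.hU κ hκ m hm _ hε
  obtain ⟨T, hTΛ, hT⟩ := h.hT
  obtain ⟨K', hK'c, hK'b, hK'm⟩ := ball_of_E (2 * R' * ∑ t ∈ T, E (act t e0) e0)
  refine ⟨(fun z : Ball 2 => (z : B2)) ⁻¹' K', ?_, hCmem.trans ?_⟩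
  · rw [Subtype.isCompact_iff]
    have h1 : ((↑) : Ball 2 → B2) '' ((fun z : Ball 2 => (z : B2)) ⁻¹' K') = K' := by
      ext y
      constructor
      · rintro ⟨z, hz, rfl⟩
        exact hz
      · intro hy
        exact ⟨⟨y, hK'b hy⟩, hy, rfl⟩
    rw [h1]
    exact hK'c
  · intro x hx
    rw [hC] at hx
    have hux := unit_lft x
    obtain ⟨A, hA, hAE⟩ := hR' (lft (x : B2)) hux hx
    obtain ⟨g, hg, t, ht, rfl⟩ := hT A hA
    have hgU : g ∈ U := h.hΓU hg
    have htU : t ∈ U := h.hU (hTΛ t ht)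
    obtain ⟨y, hy⟩ : ∃ y : Ball 2, y = (rAct ⟨g, hgU⟩)⁻¹ x := ⟨_, rfl⟩
    have hxy : rAct ⟨g, hgU⟩ y = x := by
      rw [hy, ← Equiv.Perm.mul_apply, mul_inv_cancel]
      rfl
    have huy := unit_lft y
    have hEy : E (lft (y : B2)) (act t e0) ≤ R' := by
      have h2 := rAct_val ⟨g, hgU⟩ y
      rw [hxy] at h2
      obtain ⟨s, hs, hls⟩ := lft_bfun g hgU (y : B2) (ball_lt y)
      have h1 : E (lft (y : B2)) (act t e0) = E (lft (x : B2)) (act (g * t) e0) := by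
        rw [h2]
        change _ = E (lft (bfun g (y : B2))) (act (g * t) e0)
        rw [hls, E_smul_left, hs, one_mul, act_mul, E_act hgU]
      rw [h1]
      exact hAE
    have hR'0 : 0 ≤ R' := (E_nonneg _ _).trans hEy
    have hEt : E (act t e0) e0 ≤ ∑ t ∈ T, E (act t e0) e0 :=
      Finset.single_le_sum (f := fun t => E (act t e0) e0) (fun _ _ => E_nonneg _ _) ht
    have hEy0 : E (lft (y : B2)) e0 ≤ 2 * R' * ∑ t ∈ T, E (act t e0) e0 := by
      have h1 := E_tri (lft (y : B2)) e0 (act t e0) huy hf_e0 (hf_act_e0 htU)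
      have h2 : E (lft (y : B2)) (act t e0) * E (act t e0) e0 ≤
          R' * ∑ t ∈ T, E (act t e0) e0 :=
        mul_le_mul hEy hEt (E_nonneg _ _) hR'0
      linarith [mul_assoc 2 (E (lft (y : B2)) (act t e0)) (E (act t e0) e0),
        mul_assoc 2 R' (∑ t ∈ T, E (act t e0) e0)]
    have hyK : (y : B2) ∈ K' := hK'm _ (ball_lt y) hEy0
    have hγ : rAct ⟨g, hgU⟩ ∈ GR Γ := (mem_GR Γ h.hΓU _).2 ⟨g, hg, rfl⟩
    exact Set.mem_iUnion₂.mpr ⟨rAct ⟨g, hgU⟩, hγ, y, hyK, hxy⟩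

/-! ## The critical exponent -/

theorem exp_arcosh_le (c s : ℝ) (hc : 1 ≤ c) (hs : 0 < s) :
    Real.exp (-(s * Real.arcosh c)) ≤ c ^ (-s) := by
  have h0 : 0 < c := by linarith
  rw [Real.rpow_def_of_pos h0]
  apply Real.exp_le_exp.mpr
  have h1 : Real.log c ≤ Real.arcosh c := by
    rw [Real.arcosh]
    exact Real.log_le_log h0 (by linarith [Real.sqrt_nonneg (c ^ 2 - 1)])
  nlinarith

theorem le_exp_arcosh (c s : ℝ) (hc : 1 ≤ c) (hs : 0 < s) :
    (2 * c) ^ (-s) ≤ Real.exp (-(s * Real.arcosh c)) := by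
  rw [Real.arcosh]
  exact exp_dist c s hc hs

theorem exponent_nonempty (Λ Γ : Subgroup GL3) (h : Hyp Λ Γ) (x : Ball 2) :
    {s : ℝ | 0 < s ∧ Summable fun γ : GR Γ =>
      Real.exp (-(s * bergmanDist x ((γ : Equiv.Perm (Ball 2)) x)))}.Nonempty := by
  obtain ⟨κ, hκ⟩ := h.hS1
  have hx1 := one_le_E (lft (x : B2)) e0 (unit_lft x) hf_e0
  refine ⟨(κ : ℝ) + 1, by positivity, ?_⟩
  choose a ha haγ using fun γ : GR Γ => (mem_GR Γ h.hΓU (γ : Equiv.Perm (Ball 2))).1 γ.2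
  let i : GR Γ → Λ := fun γ => ⟨a γ, h.hΓ (ha γ)⟩
  have hi : Function.Injective i := by
    intro γ γ' hγ
    have h1 : a γ = a γ' := congrArg (fun B : Λ => (B : GL3)) hγ
    apply Subtype.ext
    rw [haγ γ, haγ γ']
    congr 1
    exact Subtype.ext h1
  have hs := (hκ.comp_injective hi).mul_left ((4 * E (lft (x : B2)) e0 ^ 2) ^ ((κ : ℝ) + 1))
  refine Summable.of_nonneg_of_le (fun γ => (Real.exp_pos _).le) (fun γ => ?_) hs
  have hU' : a γ ∈ U := h.hΓU (ha γ)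
  have h1 := one_le_norm hU'
  rw [haγ γ, dist_eq, E_rAct]
  change _ ≤ (4 * E (lft (x : B2)) e0 ^ 2) ^ ((κ : ℝ) + 1) * (‖((a γ : GL3) : M3) 0 0‖⁻¹) ^ κ
  have h2 := one_le_E _ _ (unit_lft x) (act_unit hU' (unit_lft x))
  have h3 := exp_arcosh_le _ ((κ : ℝ) + 1) h2 (by positivity)
  refine h3.trans ?_
  have h4 := le_disp ⟨a γ, hU'⟩ x
  have h5 : ‖((a γ : GL3) : M3) 0 0‖ / (4 * E (lft (x : B2)) e0 ^ 2) ≤
      E (lft (x : B2)) (act (a γ) (lft (x : B2))) := by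
    rw [div_le_iff₀ (by positivity)]
    linarith
  have h6 := Real.rpow_le_rpow_of_nonpos (z := -((κ : ℝ) + 1)) (by positivity) h5
    (by have : (0 : ℝ) ≤ κ := by positivity
        linarith)
  refine h6.trans ?_
  rw [div_eq_mul_inv, Real.mul_rpow (by positivity) (by positivity), Real.inv_rpow (by positivity),
    Real.rpow_neg (by positivity : (0 : ℝ) ≤ 4 * E (lft (x : B2)) e0 ^ 2), inv_inv, mul_comm]
  refine mul_le_mul_of_nonneg_left ?_ (by positivity)
  rw [Real.rpow_neg (by positivity), inv_pow]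
  apply inv_anti₀ (by positivity)
  calc ‖((a γ : GL3) : M3) 0 0‖ ^ κ = ‖((a γ : GL3) : M3) 0 0‖ ^ (κ : ℝ) :=
        (Real.rpow_natCast _ _).symm
    _ ≤ ‖((a γ : GL3) : M3) 0 0‖ ^ ((κ : ℝ) + 1) :=
        Real.rpow_le_rpow_of_exponent_le h1 (by linarith)

theorem exponent_lower (Γ : Subgroup GL3) (h : Hyp Lam Γ) (x : Ball 2) (s : ℝ) (hs0 : 0 < s)
    (hsum : Summable fun γ : GR Γ =>
      Real.exp (-(s * bergmanDist x ((γ : Equiv.Perm (Ball 2)) x)))) :
    3 + 1 / 1200 ≤ s := by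
  by_contra hlt
  rw [not_le] at hlt
  refine Lam_diverge_explicit ?_
  have hx1 := one_le_E (lft (x : B2)) e0 (unit_lft x) hf_e0
  obtain ⟨M, hM⟩ : ∃ M : ℝ, M = 8 * E (lft (x : B2)) e0 ^ 2 := ⟨_, rfl⟩
  have hM0 : 0 < M := by rw [hM]; positivity
  -- the injection of `Γ` into `GR Γ`
  let F : Γ → GR Γ := fun A => ⟨rAct ⟨(A : GL3), h.hΓU A.2⟩,
    (mem_GR Γ h.hΓU _).2 ⟨(A : GL3), A.2, rfl⟩⟩
  have hF : Function.Injective F := by
    intro A B hAB
    have h1 : rAct ⟨(A : GL3), h.hΓU A.2⟩ = rAct ⟨(B : GL3), h.hΓU B.2⟩ :=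
      congrArg Subtype.val hAB
    exact Subtype.ext (rAct_inj Lam Γ h _ _ A.2 B.2 h1)
  have s1 := hsum.comp_injective hF
  have s2 : Summable (fun A : Γ => (M * ‖((A : GL3) : M3) 0 0‖) ^ (-s)) := by
    refine Summable.of_nonneg_of_le (fun A => by positivity) (fun A => ?_) s1
    have hU' : (A : GL3) ∈ U := h.hΓU A.2
    have h1 := one_le_norm hU'
    simp only [Function.comp_apply, F]
    rw [dist_eq, E_rAct]
    change _ ≤ Real.exp (-(s * Real.arcosh (E (lft (x : B2)) (act (A : GL3) (lft (x : B2))))))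
    have h2 := one_le_E _ _ (unit_lft x) (act_unit hU' (unit_lft x))
    refine le_trans ?_ (le_exp_arcosh _ s h2 hs0)
    have h3 := disp_le ⟨(A : GL3), hU'⟩ x
    refine Real.rpow_le_rpow_of_nonpos (by positivity) ?_ (by linarith)
    rw [hM]
    linarith
  obtain ⟨T, hTΛ, hT⟩ := h.hT
  have s3 : Summable (fun t : {t // t ∈ T} => (2 * M * ‖((t : GL3) : M3) 0 0‖) ^ s) :=
    Summable.of_finite
  have s4 := Summable.mul_of_nonneg s2 s3 (fun A => by simp only [Pi.zero_apply]; positivity)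
    (fun t => by simp only [Pi.zero_apply]; positivity)
  -- the injection of `Lam` into `Γ × T`
  choose g hg t ht hgt using hT
  let i : Lam → Γ × {t // t ∈ T} := fun B => (⟨g B B.2, hg B B.2⟩, ⟨t B B.2, ht B B.2⟩)
  have hi : Function.Injective i := by
    intro B B' hBB
    have h1 : g B B.2 = g B' B'.2 := congrArg (fun x => ((x.1 : Γ) : GL3)) hBB
    have h2 : t B B.2 = t B' B'.2 := congrArg (fun x => (x.2 : GL3)) hBB
    apply Subtype.ext
    rw [hgt B B.2, hgt B' B'.2, h1, h2]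
  refine Summable.of_nonneg_of_le (fun B => by positivity) (fun B => ?_) (s4.comp_injective hi)
  simp only [Function.comp_apply, i]
  set A : GL3 := g B B.2 with hA
  set τ : GL3 := t B B.2 with hτ
  have hAΓ : A ∈ Γ := hg B B.2
  have hAU : A ∈ U := h.hΓU hAΓ
  have hτU : τ ∈ U := h.hU (hTΛ τ (ht B B.2))
  have hB : (B : GL3) = A * τ := hgt B B.2
  have hBU : (B : GL3) ∈ U := h.hU B.2
  have k1 : ‖(A : M3) 0 0‖ ≤ 2 * ‖((B : GL3) : M3) 0 0‖ * ‖(τ : M3) 0 0‖ := by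
    have h1 := E_tri e0 (act A e0) (act (B : GL3) e0) hf_e0 (hf_act_e0 hAU) (hf_act_e0 hBU)
    have h2 : E (act (B : GL3) e0) (act A e0) = ‖(τ : M3) 0 0‖ := by
      rw [hB, act_mul, E_act hAU, E_symm, E_e0_act]
    rw [E_e0_act, E_e0_act, h2] at h1
    exact h1
  have a1 := one_le_norm hAU
  have b1 := one_le_norm hBU
  have t1 := one_le_norm hτU
  have k0 : (‖((B : GL3) : M3) 0 0‖) ^ (-(3 + (1 : ℝ) / 1200)) ≤ (‖((B : GL3) : M3) 0 0‖) ^ (-s) :=
    Real.rpow_le_rpow_of_exponent_le b1 (by linarith)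
  have k2 : (‖((B : GL3) : M3) 0 0‖) ^ (-s) ≤
      ((M * ‖(A : M3) 0 0‖) * (2 * M * ‖(τ : M3) 0 0‖)⁻¹) ^ (-s) := by
    refine Real.rpow_le_rpow_of_nonpos (by positivity) ?_ (by linarith)
    rw [← div_eq_mul_inv, div_le_iff₀ (by positivity)]
    nlinarith
  refine (k0.trans k2).trans (le_of_eq ?_)
  rw [Real.mul_rpow (by positivity) (by positivity), Real.inv_rpow (by positivity),
    Real.rpow_neg (by positivity : (0 : ℝ) ≤ 2 * M * ‖(τ : M3) 0 0‖), inv_inv]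

/-- There is a discrete, torsion-free, convex-cocompact group of holomorphic automorphisms of the
ball of complex dimension two which is not a uniform lattice and whose critical exponent is at
least `3 + 1/1200` (for the metric with curvature in `[-4, -1]`, where uniform lattices have critical
exponent `4`). -/
theorem result : ∃ Γ : Subgroup (Equiv.Perm (Ball 2)),
    Γ ≤ Aut 2 ∧ Discrete Γ ∧ TorsionFree Γ ∧ ConvexCocompact Γ ∧ ¬ CocompactOnBall Γ ∧
      ∀ x : Ball 2, 3 + 1 / 1200 ≤ criticalExponent Γ x := by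
  obtain ⟨Γ, h⟩ := exists_hyp
  refine ⟨GR Γ, GR_le Γ, discrete Lam Γ h, torsionFree Lam Γ h, convexCocompact Lam Γ h,
    not_cocompact Lam Γ h, ?_⟩
  intro x
  refine le_csInf (exponent_nonempty Lam Γ h x) ?_
  rintro s ⟨hs0, hs⟩
  exact exponent_lower Γ h x s hs0 hs

end Pool.Agent.Results.MP_b0ef7e_gt.GapFails
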